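import Pool.Agent.H31.WF3

namespace Pool.Agent.Results.MP_70096d_gt.Main

open Pool.Agent.H31.WF

theorem result : ∃ (P Q : Type) (_ : PartialOrder P) (_ : PartialOrder Q),
    Dcpo P ∧ Dcpo Q ∧ WFPoset P ∧ WFPoset Q ∧ ¬ WellFiltered (P × Q) (scott (P × Q)) :=
  ⟨WithTop J, Unit, inferInstance, inferInstance, dcpo2,
    fun _ _ _ => ⟨(), fun _ _ => le_rfl, fun _ _ => le_rfl⟩, wf2, wfUnit, notwf⟩

end Pool.Agent.Results.MP_70096d_gt.Main
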