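import Pool.Agent.H31.WF1

namespace Pool.Agent.Results.MP_70096d_gt.Scott

open Pool.Agent.H31.WF

universe u v

theorem result (P : Type u) (Q : Type v) [PartialOrder P] [PartialOrder Q]
    (hP : WellFiltered P (scott P)) (hQ : WellFiltered Q (scott Q)) :
    WellFiltered (P × Q) (scott (P × Q)) :=
  prod hP hQ

end Pool.Agent.Results.MP_70096d_gt.Scott
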